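import Mathlib

open scoped InnerProductSpace
open Filter Topology

namespace Pool.Agent.Results.MP_f23f32_an.IdempotentUltrafilter

section Setting

variable {H : Type*} [NormedAddCommGroup H] [InnerProductSpace ℂ H] [CompleteSpace H]

/-- `ψ` maps `M` to `M` and is a contractive linear projection there (its values outside
`M` play no role). -/
structure IsContractiveProjection (M : Set (H →L[ℂ] H))
    (ψ : (H →L[ℂ] H) → (H →L[ℂ] H)) : Prop where
  maps : ∀ x ∈ M, ψ x ∈ M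
  add : ∀ x ∈ M, ∀ y ∈ M, ψ (x + y) = ψ x + ψ y
  smul : ∀ c : ℂ, ∀ x ∈ M, ψ (c • x) = c • ψ x
  idempotent : ∀ x ∈ M, ψ (ψ x) = ψ x
  contractive : ∀ x ∈ M, ‖ψ x‖ ≤ ‖x‖

/-- `X` is an `A`-bimodule under left and right multiplication. -/
def IsBimoduleOver (A : VonNeumannAlgebra H) (X : Set (H →L[ℂ] H)) : Prop :=
  ∀ a ∈ A, ∀ x ∈ X, a * x ∈ X ∧ x * a ∈ X

/-- The triple product `{abc} = (a b* c + c b* a) / 2`. -/
noncomputable def triple (a b c : H →L[ℂ] H) : H →L[ℂ] H :=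
  (1 / 2 : ℂ) • (a * star b * c + c * star b * a)

/-- `x` commutes with every element of `A`. -/
def CommutesWith (x : H →L[ℂ] H) (A : VonNeumannAlgebra H) : Prop := ∀ a ∈ A, x * a = a * x

/-- `X` is closed under the triple product. -/
def ClosedUnderTriple (X : Set (H →L[ℂ] H)) : Prop :=
  ∀ a ∈ X, ∀ b ∈ X, ∀ c ∈ X, triple a b c ∈ X

end Setting

/-- The Hilbert space `ℓ²(ℕ)`. -/
abbrev L2 : Type := lp (fun _ : ℕ => ℂ) 2

theorem memlp_comp (φ : ℕ → ℕ) (hφ : Function.Injective φ) (f : L2) :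
    Memℓp (fun n => (f : ∀ _ : ℕ, ℂ) (φ n)) 2 := by
  have hf := lp.memℓp f
  rw [memℓp_gen_iff (by norm_num)] at hf ⊢
  exact hf.comp_injective hφ

/-- Composition with an injection of the index set, as a linear map on `ℓ²(ℕ)`. -/
noncomputable def compLin (φ : ℕ → ℕ) (hφ : Function.Injective φ) : L2 →ₗ[ℂ] L2 where
  toFun f := ⟨fun n => f (φ n), memlp_comp φ hφ f⟩
  map_add' f g := by ext n; rfl
  map_smul' c f := by ext n; rfl

theorem norm_compLin_le (φ : ℕ → ℕ) (hφ : Function.Injective φ) (f : L2) :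
    ‖compLin φ hφ f‖ ≤ ‖f‖ := by
  have h2 : (0 : ℝ) < (2 : ENNReal).toReal := by norm_num
  have h1 := lp.norm_rpow_eq_tsum h2 (compLin φ hφ f)
  have h3 := lp.norm_rpow_eq_tsum h2 f
  have hs : Summable (fun n => ‖f n‖ ^ (2 : ENNReal).toReal) :=
    (memℓp_gen_iff h2).1 (lp.memℓp f)
  have h4 : ∑' n, ‖(compLin φ hφ f) n‖ ^ (2 : ENNReal).toReal ≤
      ∑' n, ‖f n‖ ^ (2 : ENNReal).toReal :=
    tsum_comp_le_tsum_of_inj hs (fun n => by positivity) hφ
  rw [← h1, ← h3] at h4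
  exact (Real.rpow_le_rpow_iff (norm_nonneg _) (norm_nonneg _) h2).1 h4

/-- Composition with an injection of the index set, as a contraction on `ℓ²(ℕ)`. -/
noncomputable def compOp (φ : ℕ → ℕ) (hφ : Function.Injective φ) : L2 →L[ℂ] L2 :=
  (compLin φ hφ).mkContinuous 1 (fun f => by simpa using norm_compLin_le φ hφ f)

theorem compOp_apply (φ : ℕ → ℕ) (hφ : Function.Injective φ) (f : L2) (n : ℕ) :
    (compOp φ hφ f) n = f (φ n) := rfl

theorem norm_compOp_le (φ : ℕ → ℕ) (hφ : Function.Injective φ) : ‖compOp φ hφ‖ ≤ 1 :=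
  LinearMap.mkContinuous_norm_le _ zero_le_one _

theorem xor_inj (g : ℕ) : Function.Injective (fun n : ℕ => n ^^^ g) := by
  intro a b h
  have h' : (a ^^^ g) ^^^ g = (b ^^^ g) ^^^ g := congrArg (fun t => t ^^^ g) h
  simpa [Nat.xor_assoc] using h'

/-- The unitary `(ρ g f) n = f (n ⊕ g)`, where `⊕` is bitwise exclusive or. -/
noncomputable def rho (g : ℕ) : L2 →L[ℂ] L2 := compOp (fun n => n ^^^ g) (xor_inj g)

/-- The backward shift `(B f) n = f (n + 1)`. -/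
noncomputable def B : L2 →L[ℂ] L2 := compOp (fun n => n + 1) (add_left_injective 1)

theorem rho_apply (g : ℕ) (f : L2) (n : ℕ) : (rho g f) n = f (n ^^^ g) := rfl

theorem B_apply (f : L2) (n : ℕ) : (B f) n = f (n + 1) := rfl

theorem norm_rho_le (g : ℕ) : ‖rho g‖ ≤ 1 := norm_compOp_le _ _

theorem rho_rho (g h : ℕ) : rho g * rho h = rho (g ^^^ h) := by
  ext f n
  show f ((n ^^^ g) ^^^ h) = f (n ^^^ (g ^^^ h))
  rw [Nat.xor_assoc]

theorem inner_rho (g : ℕ) (f h : L2) : ⟪rho g f, h⟫_ℂ = ⟪f, rho g h⟫_ℂ := by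
  rw [lp.inner_eq_tsum, lp.inner_eq_tsum]
  let e : ℕ ≃ ℕ := ⟨fun n => n ^^^ g, fun n => n ^^^ g, fun n => by simp,
    fun n => by simp⟩
  rw [← e.tsum_eq]
  apply tsum_congr
  intro n
  show ⟪f ((n ^^^ g) ^^^ g), h (n ^^^ g)⟫_ℂ = ⟪f n, h (n ^^^ g)⟫_ℂ
  simp

/-- Limits of bounded families of operators in the weak operator topology along an ultrafilter. -/
theorem exists_wot_lim {H : Type*} [NormedAddCommGroup H] [InnerProductSpace ℂ H]
    [CompleteSpace H] {ι : Type*} (ω : Ultrafilter ι) (T : ι → H →L[ℂ] H) (C : ℝ)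
    (hC : ∀ i, ‖T i‖ ≤ C) :
    ∃ S : H →L[ℂ] H, ‖S‖ ≤ C ∧
      ∀ v w, Tendsto (fun i => ⟪T i v, w⟫_ℂ) ω (𝓝 ⟪S v, w⟫_ℂ) := by
  have hι : Nonempty ι := by
    by_contra h
    rw [not_nonempty_iff] at h
    exact ω.neBot.ne (Filter.filter_eq_bot_of_isEmpty _)
  have hC0 : 0 ≤ C := (norm_nonneg _).trans (hC (Classical.arbitrary ι))
  have hb : ∀ v w i, ‖⟪T i v, w⟫_ℂ‖ ≤ C * ‖v‖ * ‖w‖ := by
    intro v w i
    calc ‖⟪T i v, w⟫_ℂ‖ ≤ ‖T i v‖ * ‖w‖ := norm_inner_le_norm _ _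
      _ ≤ (‖T i‖ * ‖v‖) * ‖w‖ := by gcongr; exact (T i).le_opNorm v
      _ ≤ C * ‖v‖ * ‖w‖ := by gcongr; exact hC i
  have hlim : ∀ v w, ∃ z : ℂ, ‖z‖ ≤ C * ‖v‖ * ‖w‖ ∧
      Tendsto (fun i => ⟪T i v, w⟫_ℂ) ω (𝓝 z) := by
    intro v w
    have hK : IsCompact (Metric.closedBall (0 : ℂ) (C * ‖v‖ * ‖w‖)) :=
      isCompact_closedBall _ _
    obtain ⟨z, hz, hlz⟩ := hK.ultrafilter_le_nhds (ω.map (fun i => ⟪T i v, w⟫_ℂ)) (by
      rw [Filter.le_principal_iff]
      exact Filter.mem_map.2 (Filter.univ_mem' fun i => by simpa using hb v w i))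
    exact ⟨z, by simpa using hz, hlz⟩
  choose L hLb hL using hlim
  have huniq : ∀ v w z, Tendsto (fun i => ⟪T i v, w⟫_ℂ) ω (𝓝 z) → L v w = z :=
    fun v w z hz => tendsto_nhds_unique (hL v w) hz
  let Bf : H →ₗ⋆[ℂ] H →ₗ[ℂ] ℂ := LinearMap.mk₂'ₛₗ (starRingEnd ℂ) (RingHom.id ℂ) L
    (fun v v' w => huniq _ _ _ (by
      simpa [inner_add_left] using (hL v w).add (hL v' w)))
    (fun c v w => huniq _ _ _ (by
      simpa [inner_smul_left, mul_comm] using (hL v w).const_mul ((starRingEnd ℂ) c)))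
    (fun v w w' => huniq _ _ _ (by
      simpa [inner_add_right] using (hL v w).add (hL v w')))
    (fun c v w => huniq _ _ _ (by
      simpa [inner_smul_right] using (hL v w).const_mul c))
  let Bc := Bf.mkContinuous₂ C hLb
  refine ⟨InnerProductSpace.continuousLinearMapOfBilin Bc, ?_, ?_⟩
  · refine ContinuousLinearMap.opNorm_le_bound _ hC0 (fun v => ?_)
    set S := InnerProductSpace.continuousLinearMapOfBilin Bc with hS
    have h1 : ⟪S v, S v⟫_ℂ = L v (S v) := by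
      rw [hS, InnerProductSpace.continuousLinearMapOfBilin_apply]; rfl
    have h2 : ‖S v‖ * ‖S v‖ ≤ C * ‖v‖ * ‖S v‖ := by
      have h3 := hLb v (S v)
      rw [← h1, inner_self_eq_norm_sq_to_K, norm_pow, RCLike.norm_ofReal, abs_norm, sq] at h3
      exact h3
    rcases eq_or_lt_of_le (norm_nonneg (S v)) with h0 | h0
    · rw [← h0]; positivity
    · exact le_of_mul_le_mul_right h2 h0
  · intro v w
    rw [InnerProductSpace.continuousLinearMapOfBilin_apply]
    exact hL v w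

attribute [local instance] Ultrafilter.add Ultrafilter.addSemigroup

/-- There is an idempotent ultrafilter on the positive integers. -/
theorem exists_idem : ∃ ω : Ultrafilter ℕ+, ω + ω = ω :=
  exists_idempotent_of_compact_t2_of_continuous_add_left Ultrafilter.continuous_add_left

/-- An idempotent ultrafilter on the positive integers contains the multiples of `2 ^ N`. -/
theorem eventually_dvd (ω : Ultrafilter ℕ+) (hω : ω + ω = ω) (N : ℕ) :
    ∀ᶠ g : ℕ+ in (ω : Filter ℕ+), 2 ^ N ∣ (g : ℕ) := by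
  have : NeZero (2 ^ N) := ⟨by positivity⟩
  let c : ℕ+ → ZMod (2 ^ N) := fun g => ((g : ℕ) : ZMod (2 ^ N))
  obtain ⟨a, ha⟩ := Ultrafilter.eq_pure_of_finite (ω.map c)
  have h1 : ∀ᶠ g in (ω : Filter ℕ+), c g = a := by
    have : {a} ∈ ω.map c := by rw [ha]; exact Ultrafilter.mem_pure.2 rfl
    exact this
  have h2 : ∀ᶠ g in ((ω + ω : Ultrafilter ℕ+) : Filter ℕ+), c g = a := by rw [hω]; exact h1
  rw [Ultrafilter.eventually_add] at h2
  obtain ⟨g, hg, hg'⟩ := (h1.and h2).exists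
  obtain ⟨h, hh, hh'⟩ := (h1.and hg').exists
  have h3 : a + a = a := by
    have : c (g + h) = c g + c h := by simp [c]
    rw [hg, hh, hh'] at this
    exact this.symm
  have h4 : a = 0 := by simpa using h3
  filter_upwards [h1] with g hg
  rw [h4] at hg
  exact (ZMod.natCast_eq_zero_iff _ _).1 hg

/-- If `g < 2 ^ M` and `2 ^ M ∣ h` then `g + h = g ⊕ h`. -/
theorem xor_eq_add {g h M : ℕ} (hg : g < 2 ^ M) (hh : 2 ^ M ∣ h) : g ^^^ h = g + h := by
  obtain ⟨k, rfl⟩ := hh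
  rw [add_comm, Nat.two_pow_add_eq_or_of_lt hg]
  apply Nat.eq_of_testBit_eq
  intro i
  rw [Nat.testBit_xor, Nat.testBit_or, Nat.testBit_two_pow_mul]
  by_cases hi : M ≤ i
  · have : g.testBit i = false :=
      Nat.testBit_lt_two_pow (lt_of_lt_of_le hg (Nat.pow_le_pow_right (by norm_num) hi))
    simp [this]
  · simp [hi]

theorem eventually_xor_eq_add (ω : Ultrafilter ℕ+) (hω : ω + ω = ω) (g : ℕ) :
    ∀ᶠ h : ℕ+ in (ω : Filter ℕ+), g ^^^ (h : ℕ) = g + h := by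
  obtain ⟨M, hM⟩ : ∃ M : ℕ, g < 2 ^ M := ⟨g, Nat.lt_two_pow_self⟩
  filter_upwards [eventually_dvd ω hω M] with h hh
  exact xor_eq_add hM hh

/-- Conjugation by the symmetry `rho g`. -/
noncomputable def Ad (g : ℕ) (x : L2 →L[ℂ] L2) : L2 →L[ℂ] L2 := rho g * x * rho g

theorem norm_Ad_le (g : ℕ) (x : L2 →L[ℂ] L2) : ‖Ad g x‖ ≤ ‖x‖ := by
  unfold Ad
  calc ‖rho g * x * rho g‖ ≤ ‖rho g * x‖ * ‖rho g‖ := norm_mul_le _ _
    _ ≤ (‖rho g‖ * ‖x‖) * ‖rho g‖ := by gcongr; exact norm_mul_le _ _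
    _ ≤ (1 * ‖x‖) * 1 := by
        gcongr
        · exact norm_rho_le g
        · exact norm_rho_le g
    _ = ‖x‖ := by ring

theorem inner_Ad (g : ℕ) (x : L2 →L[ℂ] L2) (v w : L2) :
    ⟪Ad g x v, w⟫_ℂ = ⟪x (rho g v), rho g w⟫_ℂ := by
  show ⟪rho g (x (rho g v)), w⟫_ℂ = _
  rw [inner_rho]

theorem Ad_Ad (g h : ℕ) (x : L2 →L[ℂ] L2) : Ad g (Ad h x) = Ad (g ^^^ h) x := by
  unfold Ad
  rw [← rho_rho g h]
  have : rho h * rho g = rho g * rho h := by rw [rho_rho, rho_rho, Nat.xor_comm]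
  rw [show rho g * (rho h * x * rho h) * rho g = (rho g * rho h) * x * (rho h * rho g) by
    simp only [mul_assoc], this]

section psi

variable (ω : Ultrafilter ℕ+)

/-- The weak operator limit of the conjugates `ρ g x ρ g` along the ultrafilter `ω`. -/
noncomputable def psiFun (x : L2 →L[ℂ] L2) : L2 →L[ℂ] L2 :=
  (exists_wot_lim ω (fun g : ℕ+ => Ad (g : ℕ) x) ‖x‖ (fun _ => norm_Ad_le _ _)).choose

theorem norm_psiFun_le (x : L2 →L[ℂ] L2) : ‖psiFun ω x‖ ≤ ‖x‖ :=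
  (exists_wot_lim ω (fun g : ℕ+ => Ad (g : ℕ) x) ‖x‖ (fun _ => norm_Ad_le _ _)).choose_spec.1

theorem tendsto_psiFun (x : L2 →L[ℂ] L2) (v w : L2) :
    Tendsto (fun g : ℕ+ => ⟪Ad (g : ℕ) x v, w⟫_ℂ) ω (𝓝 ⟪psiFun ω x v, w⟫_ℂ) :=
  (exists_wot_lim ω (fun g : ℕ+ => Ad (g : ℕ) x) ‖x‖ (fun _ => norm_Ad_le _ _)).choose_spec.2 v w

theorem psiFun_eq_of_tendsto (x y : L2 →L[ℂ] L2)
    (h : ∀ v w, Tendsto (fun g : ℕ+ => ⟪Ad (g : ℕ) x v, w⟫_ℂ) ω (𝓝 ⟪y v, w⟫_ℂ)) :
    psiFun ω x = y := by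
  ext1 v
  apply ext_inner_right ℂ
  intro w
  exact tendsto_nhds_unique (tendsto_psiFun ω x v w) (h v w)

/-- The map `ψ` as a linear map. -/
noncomputable def psi : (L2 →L[ℂ] L2) →ₗ[ℂ] (L2 →L[ℂ] L2) where
  toFun := psiFun ω
  map_add' x y := psiFun_eq_of_tendsto ω _ _ (fun v w => by
    have h := (tendsto_psiFun ω x v w).add (tendsto_psiFun ω y v w)
    rw [← inner_add_left] at h
    refine h.congr (fun g => ?_)
    simp [Ad, mul_add, add_mul])
  map_smul' c x := psiFun_eq_of_tendsto ω _ _ (fun v w => by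
    have h := (tendsto_psiFun ω x v w).const_mul ((starRingEnd ℂ) c)
    rw [← inner_smul_left] at h
    refine h.congr (fun g => ?_)
    simp [Ad, mul_comm])

theorem psi_apply (x : L2 →L[ℂ] L2) : psi ω x = psiFun ω x := rfl

theorem psi_mul_left (a x : L2 →L[ℂ] L2) (ha : ∀ g, rho g * a = a * rho g) :
    psi ω (a * x) = a * psi ω x := by
  apply psiFun_eq_of_tendsto
  intro v w
  have h := tendsto_psiFun ω x v (star a w)
  have h2 : ⟪(a * psi ω x) v, w⟫_ℂ = ⟪psiFun ω x v, star a w⟫_ℂ := by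
    rw [ContinuousLinearMap.star_eq_adjoint, ContinuousLinearMap.adjoint_inner_right]; rfl
  rw [h2]
  refine h.congr (fun g => ?_)
  rw [ContinuousLinearMap.star_eq_adjoint, ContinuousLinearMap.adjoint_inner_right]
  have : Ad g (a * x) = a * Ad g x := by
    unfold Ad
    rw [← mul_assoc (rho g) a x, ha g]; simp only [mul_assoc]
  rw [this]; rfl

theorem psi_mul_right (a x : L2 →L[ℂ] L2) (ha : ∀ g, rho g * a = a * rho g) :
    psi ω (x * a) = psi ω x * a := by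
  apply psiFun_eq_of_tendsto
  intro v w
  refine (tendsto_psiFun ω x (a v) w).congr (fun g => ?_)
  have : Ad g (x * a) = Ad g x * a := by
    unfold Ad
    rw [mul_assoc, mul_assoc x a, ← ha g]; simp only [mul_assoc]
  rw [this]; rfl

theorem psi_psi (hω : ω + ω = ω) (x : L2 →L[ℂ] L2) : psi ω (psi ω x) = psi ω x := by
  apply psiFun_eq_of_tendsto
  intro v w
  rw [Metric.tendsto_nhds]
  intro ε hε
  have h1 := tendsto_psiFun ω x v w
  rw [Metric.tendsto_nhds] at h1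
  have h2 : ∀ᶠ k : ℕ+ in ((ω + ω : Ultrafilter ℕ+) : Filter ℕ+),
      dist ⟪Ad (k : ℕ) x v, w⟫_ℂ ⟪psiFun ω x v, w⟫_ℂ < ε / 2 := by
    rw [hω]; exact h1 (ε / 2) (by positivity)
  rw [Ultrafilter.eventually_add] at h2
  filter_upwards [h2] with g hg
  have h3 : Tendsto (fun h : ℕ+ => ⟪Ad ((g : ℕ) ^^^ (h : ℕ)) x v, w⟫_ℂ) ω
      (𝓝 ⟪Ad (g : ℕ) (psi ω x) v, w⟫_ℂ) := by
    rw [inner_Ad]
    refine (tendsto_psiFun ω x (rho g v) (rho g w)).congr (fun h => ?_)
    rw [← inner_Ad, Ad_Ad]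
  have h4 : ∀ᶠ h : ℕ+ in (ω : Filter ℕ+),
      dist ⟪Ad ((g : ℕ) ^^^ (h : ℕ)) x v, w⟫_ℂ ⟪psiFun ω x v, w⟫_ℂ ≤ ε / 2 := by
    filter_upwards [hg, eventually_xor_eq_add ω hω g] with h hh hxor
    rw [hxor]
    exact hh.le
  have h5 : dist ⟪Ad (g : ℕ) (psi ω x) v, w⟫_ℂ ⟪psiFun ω x v, w⟫_ℂ ≤ ε / 2 :=
    le_of_tendsto (h3.dist tendsto_const_nhds) h4
  exact lt_of_le_of_lt h5 (by linarith)

/-- The standard basis vector `δ n`. -/
noncomputable def del (n : ℕ) : L2 := lp.single 2 n (1 : ℂ)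

theorem inner_del (f : L2) (n : ℕ) : ⟪f, del n⟫_ℂ = (starRingEnd ℂ) (f n) := by
  unfold del
  rw [lp.inner_single_right]
  simp

theorem ext_del {f h : L2} (hfh : ∀ n, ⟪f, del n⟫_ℂ = ⟪h, del n⟫_ℂ) : f = h := by
  ext n
  have := hfh n
  rw [inner_del, inner_del] at this
  exact (starRingEnd ℂ).injective this

theorem del_apply (n m : ℕ) : (del n) m = if m = n then 1 else 0 := by
  unfold del
  by_cases h : m = n
  · subst h; simp
  · rw [lp.single_apply_ne _ _ _ h]; simp [h]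

theorem norm_del (n : ℕ) : ‖del n‖ = 1 := by
  unfold del
  rw [lp.norm_single (by norm_num)]; simp

/-- The backward shift is fixed by `ψ`. -/
theorem psi_B (hω : ω + ω = ω) : psi ω B = B := by
  ext1 v
  apply ext_del
  intro n
  refine tendsto_nhds_unique (tendsto_psiFun ω B v (del n)) ?_
  apply tendsto_const_nhds.congr'
  obtain ⟨M, hM⟩ : ∃ M : ℕ, n + 1 < 2 ^ M := ⟨n + 1, Nat.lt_two_pow_self⟩
  filter_upwards [eventually_dvd ω hω M] with g hg
  rw [inner_del, inner_del]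
  congr 1
  have e1 : n ^^^ (g : ℕ) = n + g := xor_eq_add (Nat.lt_of_succ_lt hM) hg
  have e2 : (n + 1) ^^^ (g : ℕ) = n + 1 + g := xor_eq_add hM hg
  have e3 : ((n ^^^ (g : ℕ)) + 1) ^^^ (g : ℕ) = n + 1 := by
    rw [e1, show n + (g : ℕ) + 1 = (n + 1) ^^^ (g : ℕ) by rw [e2]; ring]
    simp
  show v (n + 1) = v (((n ^^^ (g : ℕ)) + 1) ^^^ (g : ℕ))
  rw [e3]

theorem rho_del (g n : ℕ) : rho g (del n) = del (n ^^^ g) := by
  ext m
  rw [rho_apply, del_apply, del_apply]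
  congr 1
  apply propext
  constructor
  · rintro rfl; simp
  · rintro rfl; simp

theorem B_del_zero : B (del 0) = 0 := by
  ext m
  rw [B_apply, del_apply]
  simp

theorem B_del_succ (n : ℕ) : B (del (n + 1)) = del n := by
  ext m
  rw [B_apply, del_apply, del_apply]
  simp

theorem starB_del (n : ℕ) : (star B) (del n) = del (n + 1) := by
  apply ext_inner_right ℂ
  intro f
  rw [ContinuousLinearMap.star_eq_adjoint, ContinuousLinearMap.adjoint_inner_left,
    ← inner_conj_symm, inner_del, ← inner_conj_symm (del (n + 1)), inner_del]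
  rfl

theorem inner_BstarB_zero : ⟪(star B * B) (del 0), del 0⟫_ℂ = 0 := by
  show ⟪(star B) (B (del 0)), del 0⟫_ℂ = 0
  rw [B_del_zero]; simp

theorem inner_BstarB_succ (n : ℕ) : ⟪(star B * B) (del (n + 1)), del (n + 1)⟫_ℂ = 1 := by
  show ⟪(star B) (B (del (n + 1))), del (n + 1)⟫_ℂ = 1
  rw [B_del_succ, starB_del, inner_del, del_apply]; simp

theorem inner_BBstar (n : ℕ) : ⟪(B * star B) (del n), del n⟫_ℂ = 1 := by
  show ⟪B ((star B) (del n)), del n⟫_ℂ = 1
  rw [starB_del, B_del_succ, inner_del, del_apply]; simp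

theorem inner_psi_of_diag (x : L2 →L[ℂ] L2) (z : ℂ)
    (h : ∀ n, ⟪x (del (n + 1)), del (n + 1)⟫_ℂ = z) : ⟪psi ω x (del 0), del 0⟫_ℂ = z := by
  refine tendsto_nhds_unique (tendsto_psiFun ω x (del 0) (del 0)) ?_
  apply tendsto_const_nhds.congr'
  apply Filter.Eventually.of_forall
  intro g
  show z = ⟪Ad (g : ℕ) x (del 0), del 0⟫_ℂ
  rw [inner_Ad, rho_del, Nat.zero_xor]
  obtain ⟨k, hk⟩ : ∃ k, (g : ℕ) = k + 1 := ⟨g - 1, by have := g.pos; omega⟩
  rw [hk, h k]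

end psi

/-- The von Neumann algebra of all operators on `ℓ²(ℕ)` commuting with every `rho g`. -/
noncomputable def algA : VonNeumannAlgebra L2 where
  toStarSubalgebra := StarSubalgebra.centralizer ℂ (Set.range rho)
  centralizer_centralizer' := by simp

/-- The von Neumann algebra `B(ℓ²(ℕ))` of all bounded operators. -/
noncomputable def algM : VonNeumannAlgebra L2 where
  toStarSubalgebra := ⊤
  centralizer_centralizer' := by
    simp

theorem mem_algM (x : L2 →L[ℂ] L2) : x ∈ algM := by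
  show x ∈ (⊤ : StarSubalgebra ℂ (L2 →L[ℂ] L2))
  exact StarSubalgebra.mem_top

theorem mem_algA_iff (a : L2 →L[ℂ] L2) : a ∈ algA ↔ ∀ g, rho g * a = a * rho g := by
  show a ∈ StarSubalgebra.centralizer ℂ (Set.range rho) ↔ _
  rw [StarSubalgebra.mem_centralizer_iff]
  constructor
  · intro h g
    exact (h (rho g) ⟨g, rfl⟩).1
  · rintro h _ ⟨g, rfl⟩
    refine ⟨h g, ?_⟩
    have : star (rho g) = rho g := by
      rw [ContinuousLinearMap.star_eq_adjoint]
      ext1 v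
      apply ext_inner_right ℂ
      intro w
      rw [ContinuousLinearMap.adjoint_inner_left, inner_rho]
    rw [this]
    exact h g

theorem rho_mem_algA (g : ℕ) : rho g ∈ algA := by
  rw [mem_algA_iff]
  intro h
  rw [rho_rho, rho_rho, Nat.xor_comm]

theorem psi_one (ω : Ultrafilter ℕ+) : psi ω 1 = 1 := by
  apply psiFun_eq_of_tendsto
  intro v w
  apply tendsto_const_nhds.congr
  intro g
  have : Ad (g : ℕ) 1 = 1 := by
    unfold Ad
    rw [mul_one, rho_rho, Nat.xor_self]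
    ext f n
    rw [rho_apply]; simp
  rw [this]

/-- Negative answer to the problem, already for `M = B(H)`. -/
theorem result :
    ∃ (H : Type) (_ : NormedAddCommGroup H) (_ : InnerProductSpace ℂ H) (_ : CompleteSpace H)
      (M A : VonNeumannAlgebra H) (ψ : (H →L[ℂ] H) → (H →L[ℂ] H)),
      (∀ x, x ∈ M) ∧ A ≤ M ∧ (∀ x ∈ M, CommutesWith x A → x ∈ A) ∧
      IsContractiveProjection M ψ ∧ IsBimoduleOver A (ψ '' M) ∧ ¬ ClosedUnderTriple (ψ '' M) := by
  obtain ⟨ω, hω⟩ := exists_idem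
  refine ⟨L2, inferInstance, inferInstance, inferInstance, algM, algA, psi ω, mem_algM,
    fun x _ => mem_algM x, ?_, ⟨?_, ?_, ?_, ?_, ?_⟩, ?_, ?_⟩
  · intro x _ hx
    rw [mem_algA_iff]
    intro g
    exact (hx _ (rho_mem_algA g)).symm
  · intro x _
    exact mem_algM _
  · intro x _ y _
    exact map_add (psi ω) x y
  · intro c x _
    exact map_smul (psi ω) c x
  · intro x _
    exact psi_psi ω hω x
  · intro x _
    exact norm_psiFun_le ω x
  · rintro a ha _ ⟨x, _, rfl⟩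
    have ha' := (mem_algA_iff a).1 ha
    exact ⟨⟨a * x, mem_algM _, psi_mul_left ω a x ha'⟩, ⟨x * a, mem_algM _,
      psi_mul_right ω a x ha'⟩⟩
  · intro hclosed
    have hB : B ∈ psi ω '' (algM : Set (L2 →L[ℂ] L2)) := ⟨B, mem_algM B, psi_B ω hω⟩
    have h1 : (1 : L2 →L[ℂ] L2) ∈ psi ω '' (algM : Set (L2 →L[ℂ] L2)) :=
      ⟨1, mem_algM 1, psi_one ω⟩
    obtain ⟨y, _, hy⟩ := hclosed 1 h1 B hB B hB
    have h1 : psi ω y = (1 / 2 : ℂ) • (star B * B + B * star B) := by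
      rw [hy]; simp [triple]
    have h2 : psi ω ((1 / 2 : ℂ) • (star B * B + B * star B)) =
        (1 / 2 : ℂ) • (star B * B + B * star B) := by
      rw [← h1, psi_psi ω hω]
    have hhalf : (starRingEnd ℂ) (1 / 2 : ℂ) = 1 / 2 := by
      rw [map_div₀, map_one, map_ofNat]
    have h3 := inner_psi_of_diag ω ((1 / 2 : ℂ) • (star B * B + B * star B)) 1 (by
      intro n
      have e1 := inner_BstarB_succ n
      have e2 := inner_BBstar (n + 1)
      rw [smul_apply, add_apply, inner_smul_left, inner_add_left, e1, e2, hhalf]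
      norm_num)
    rw [h2, smul_apply, add_apply, inner_smul_left,
      inner_add_left, inner_BstarB_zero, inner_BBstar, hhalf] at h3
    norm_num at h3

end Pool.Agent.Results.MP_f23f32_an.IdempotentUltrafilter
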